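import Mathlib

namespace Pool.Agent.Results.MP_25dd1e_co.Double

/-- The terms a 0, ..., a n form an acceptable sequence for b, c. -/
def Acc (b c n : ℕ) (a : ℕ → ℤ) : Prop :=
  a 0 = 0 ∧ (∀ i, i < n → a i < a (i + 1)) ∧ ∀ i, i + b ≤ n → a (i + b) ≤ a i + c

/-- The terms a 0, ..., a n hit k. -/
def Hits (k n : ℕ) (a : ℕ → ℤ) : Prop := ∃ i j, i < j ∧ j ≤ n ∧ a j = a i + k

lemma mono {n : ℕ} {a : ℕ → ℤ} (h : ∀ i, i < n → a i < a (i + 1)) (i j : ℕ) (hij : i < j)
    (hj : j ≤ n) : a i < a j := by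
  induction j, hij using Nat.le_induction with
  | base => exact h i hj
  | succ j _ ih => exact (ih (by omega)).trans (h j hj)

lemma pigeon {k n : ℕ} (hk : 0 < k) {a : ℕ → ℤ} (h : ∀ i, i < n → a i < a (i + 1))
    (hn : ¬Hits k n a) (i : ℕ) (hi : i + k ≤ n) : a i + 2 * k ≤ a (i + k) := by
  by_contra hc
  have hk' : (0 : ℤ) < k := by exact_mod_cast hk
  obtain ⟨s, hs, t, ht, hst, e⟩ := Finset.exists_ne_map_eq_of_card_lt_of_maps_to
    (s := Finset.range (k + 1)) (t := Finset.Ico (0 : ℤ) k) (by simp)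
    (f := fun s => a (i + s) % k) fun s _ => by
      simp only [Finset.coe_Ico, Set.mem_Ico]
      exact ⟨Int.emod_nonneg _ hk'.ne', Int.emod_lt_of_pos _ hk'⟩
  rw [Finset.mem_range] at hs ht
  have key : ∀ s t, s < t → t < k + 1 → a (i + s) % k = a (i + t) % k → False := fun s t h1 h2 e => by
    obtain ⟨q, hq⟩ := (Int.ModEq.dvd e : (k : ℤ) ∣ _)
    have l1 := mono h (i + s) (i + t) (by omega) (by omega)
    have l2 : a i ≤ a (i + s) := by
      rcases Nat.eq_zero_or_pos s with rfl | hs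
      · rfl
      · exact (mono h i (i + s) (by omega) (by omega)).le
    have l3 : a (i + t) ≤ a (i + k) := by
      rcases (show t ≤ k by omega).eq_or_lt with rfl | ht
      · rfl
      · exact (mono h (i + t) (i + k) (by omega) hi).le
    have q1 : 0 < q := by nlinarith
    have q2 : q < 2 := by nlinarith
    have : q = 1 := by omega
    subst this
    exact hn ⟨i + s, i + t, by omega, by omega, by linarith⟩
  rcases lt_or_gt_of_ne hst with h1 | h1
  · exact key s t h1 ht e
  · exact key t s h1 hs e.symm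

lemma upper (g B H n : ℕ) (hg : 0 < g) (hB : 0 < B) (hH : 0 < H) (hc : Nat.Coprime B (2 * H))
    (hn : g * B + g * (2 * H) ≤ n + g) (a : ℕ → ℤ) (ha : Acc (g * B) (2 * (g * B)) n a) :
    Hits (g * (2 * H)) n a := by
  by_contra hh
  obtain ⟨h0, h1, h2⟩ := ha
  set M := B + 2 * H with hM
  have hM0 : 0 < M := by omega
  set d : ℕ → ℤ := fun j => a (g * j) - 2 * (g * j : ℕ) with hd
  have bd : ∀ j, j < M → g * j ≤ n := fun j hj => by
    have : g * (j + 1) ≤ g * M := Nat.mul_le_mul_left g hj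
    rw [hM] at this
    nlinarith
  have st : ∀ j, j < M → d j ≤ d ((j + 2 * H) % M) := fun j hj => by
    by_cases hjB : j < B
    · rw [Nat.mod_eq_of_lt (by omega)]
      have := pigeon (by positivity) h1 hh (g * j) (by rw [← mul_add]; exact bd _ (by omega))
      simp only [hd, mul_add g]
      push_cast at this ⊢
      linarith
    · obtain ⟨i, rfl⟩ : ∃ i, j = i + B := ⟨j - B, by omega⟩
      rw [show i + B + 2 * H = i + M by omega, Nat.add_mod_right, Nat.mod_eq_of_lt (by omega)]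
      have := h2 (g * i) (by rw [← mul_add]; exact bd _ hj)
      simp only [hd, mul_add g]
      push_cast at this ⊢
      linarith
  have mo : Monotone fun t => d (t * (2 * H) % M) := monotone_nat_of_le_succ fun t => by
    have := st _ (Nat.mod_lt (t * (2 * H)) hM0)
    rwa [Nat.mod_add_mod, ← Nat.succ_mul] at this
  have cop : Nat.Coprime (2 * H) M := by
    rw [hM, Nat.coprime_add_self_right]; exact hc.symm
  obtain ⟨t, -, ht⟩ := Nat.exists_mul_mod_eq_of_coprime H cop hM0.ne'
  have e1 := mo (Nat.zero_le t)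
  have e2 := mo (Nat.le_mul_of_pos_left t hM0)
  simp only [zero_mul, Nat.zero_mod, mul_assoc M, Nat.mul_mod_right] at e1 e2
  rw [mul_comm t, ht, Nat.mod_eq_of_lt (by omega)] at e1 e2
  simp only [hd, mul_zero, h0] at e1 e2
  refine hh ⟨0, g * H, by positivity, bd H (by omega), ?_⟩
  push_cast at e1 e2 ⊢
  linarith

lemma lower (g B H n : ℕ) (hg : 0 < g) (hH : 0 < H) (hc : Nat.Coprime B (2 * H))
    (hn : n + g < g * B + g * (2 * H)) :
    ∃ a, Acc (g * B) (2 * (g * B)) n a ∧ ¬Hits (g * (2 * H)) n a := by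
  obtain ⟨r, -, hr⟩ := Nat.exists_mul_mod_eq_of_coprime 1 hc (by omega)
  rw [Nat.mod_eq_of_lt (show 1 < 2 * H by omega)] at hr
  have r2 : r % 2 = 1 := by
    have := Nat.mod_mod_of_dvd (B * r) (dvd_mul_right 2 H)
    rw [hr] at this
    rcases Nat.mod_two_eq_zero_or_one r with h | h
    · rw [Nat.mul_mod, h] at this; simp at this
    · exact h
  set y : ℕ → ℕ := fun j => (j + 1) * r % (2 * H) with hy
  have ylt : ∀ j, y j < 2 * H := fun j => Nat.mod_lt _ (by omega)
  have yB : ∀ j, y (j + B) = (y j + 1) % (2 * H) := fun j => by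
    simp only [hy]
    rw [Nat.mod_add_mod, show (j + B + 1) * r = (j + 1) * r + B * r by ring, ← Nat.add_mod_mod, hr]
  have yH : ∀ j, y (j + H) = (y j + H) % (2 * H) := fun j => by
    simp only [hy]
    obtain ⟨s, rfl⟩ : ∃ s, r = 2 * s + 1 := ⟨r / 2, by omega⟩
    rw [Nat.mod_add_mod, show (j + H + 1) * (2 * s + 1) = (j + 1) * (2 * s + 1) + H + 2 * H * s by ring,
      Nat.add_mul_mod_self_left]
  have y0 : ∀ j, j + 1 < 2 * H → y j ≠ 0 := fun j hj h0 => by
    have h1 : 2 * H ∣ (j + 1) * r * B := (Nat.dvd_of_mod_eq_zero h0).mul_right B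
    have h2 := Nat.mod_eq_zero_of_dvd h1
    rw [mul_assoc, mul_comm r, ← Nat.mul_mod_mod, hr, mul_one, Nat.mod_eq_of_lt hj] at h2
    omega
  have md : ∀ u v, u < 2 * H → v ≤ 2 * H → (u + v) % (2 * H) = u + v ∧ u + v < 2 * H ∨
      (u + v) % (2 * H) + 2 * H = u + v := fun u v hu hv => by
    by_cases h : u + v < 2 * H
    · exact Or.inl ⟨Nat.mod_eq_of_lt h, h⟩
    · right
      obtain ⟨w, hw⟩ : ∃ w, u + v = w + 2 * H := ⟨u + v - 2 * H, by omega⟩
      rw [hw, Nat.add_mod_right, Nat.mod_eq_of_lt (by omega)]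
  set ε : ℕ → ℤ := fun j => if 1 ≤ y j ∧ y j ≤ H then 1 else 0 with hε
  have ε01 : ∀ j, ε j = 0 ∨ ε j = 1 := fun j => by simp only [hε]; split_ifs <;> simp
  refine ⟨fun i => 2 * i + ε (i / g) - ε (0 / g), ⟨by simp, fun i _ => ?_, fun i hi => ?_⟩, ?_⟩
  · rcases ε01 (i / g) with a | a <;> rcases ε01 ((i + 1) / g) with b | b <;>
      (simp only [a, b]; push_cast; linarith)
  · have e : (i + g * B) / g = i / g + B := Nat.add_mul_div_left i B hg
    have l : i / g + 1 < 2 * H := by
      have h1 : (i + g * 1) / g = i / g + 1 := Nat.add_mul_div_left i 1 hg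
      rw [← h1, Nat.div_lt_iff_lt_mul hg]
      nlinarith
    have : ε (i / g + B) ≤ ε (i / g) := by
      have a := y0 _ l
      have b := md _ 1 (ylt (i / g)) (by omega)
      have c := ylt (i / g)
      simp only [hε, yB]
      split_ifs <;> omega
    simp only [e]
    push_cast
    linarith
  · rintro ⟨i, j, hij, -, h⟩
    push_cast at h
    have hj : (j : ℤ) = i + g * H ∧ ε (j / g) = ε (i / g) := by
      rcases ε01 (i / g) with a | a <;> rcases ε01 (j / g) with b | b <;> rw [a, b] at h ⊢ <;>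
        (have : (g : ℤ) * (2 * H) = 2 * (g * H) := by ring) <;> omega
    have hj1 : j = i + g * H := by exact_mod_cast hj.1
    have h2 := hj.2
    rw [hj1, Nat.add_mul_div_left i H hg] at h2
    have b := md _ H (ylt (i / g)) (by omega)
    have c := ylt (i / g)
    simp only [hε, yH] at h2
    split_ifs at h2 <;> omega

theorem result (b k n : ℕ) (hb : 0 < b) (hk : 0 < k) (hv : padicValNat 2 b < padicValNat 2 k) :
    (∀ a, Acc b (2 * b) n a → Hits k n a) ↔ b + k - Nat.gcd b k ≤ n := by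
  obtain ⟨g, B, K, hg, hc, rfl, rfl⟩ : ∃ g B K, 0 < g ∧ Nat.Coprime B K ∧ b = g * B ∧ k = g * K := by
    obtain ⟨B, K, h1, h2, h3⟩ := Nat.exists_coprime b k
    exact ⟨Nat.gcd b k, B, K, Nat.gcd_pos_of_pos_left k hb, h1, by rw [mul_comm]; exact h2,
      by rw [mul_comm]; exact h3⟩
  have hB : 0 < B := Nat.pos_of_mul_pos_left hb
  have hK : 0 < K := Nat.pos_of_mul_pos_left hk
  rw [padicValNat.mul hg.ne' hB.ne', padicValNat.mul hg.ne' hK.ne'] at hv
  obtain ⟨H, rfl⟩ : 2 ∣ K := dvd_of_one_le_padicValNat (by omega)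
  rw [Nat.gcd_mul_left, hc, mul_one]
  constructor
  · intro h
    by_contra hn
    obtain ⟨a, h1, h2⟩ := lower g B H n hg (by omega) hc (by omega)
    exact h2 (h a h1)
  · intro h
    exact upper g B H n hg hB (by omega) hc (by omega)

end Pool.Agent.Results.MP_25dd1e_co.Double
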